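import Pool.Agent.W757.BL.Defs

set_option autoImplicit false

namespace Pool.Agent.W405.BLGC

open Set Filter Topology Pool.Agent.W757.BL

theorem cv_stretch {x y x' y' : ℝ → ℝ} {L t : ℝ} (h : Cv x y x' y' L) (ht : 0 < t) :
    Cv (fun s => t * x s) y (fun s => t * x' s) y' L where
  L0 := h.L0
  dx s := (h.dx s).const_mul t
  dy := h.dy
  cx := continuous_const.mul h.cx
  cy := h.cy
  px s := by simp only [h.px]
  py := h.py
  conv s r h1 h2 := by
    have := mul_pos ht (h.conv s r h1 h2)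
    nlinarith

theorem t_GC (h1 : S_CF) (h2 : S_EXM) (h3 : S_CNV) : S_GC := by
  intro x y x' y' L N t hcv ht hN
  have hcv' := cv_stretch hcv ht
  have hcf' := h1 _ _ _ _ L hcv'
  have hex := h2 _ _ _ _ L N hcv' hcf' hN
  obtain ⟨hc1, hc2⟩ := h3 _ _ _ _ L N hcv' hcf'
  -- the greatest perimeter is attained by a polygon
  have hmax : ∀ a, ∃ c, Pol L (N + 1) c ∧ c 0 = a ∧
      SS (fun s => t * x s) y (N + 1) c = GG x y L N t a := by
    intro a
    obtain ⟨⟨u, hu, hmx⟩, hst⟩ := hex a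
    have hG : IsGreatest ((fun u : Fin N → ℝ => PP (fun s => t * x s) y L a u) '' KK L N)
        (PP (fun s => t * x s) y L a u) := by
      refine ⟨⟨u, hu, rfl⟩, ?_⟩
      rintro _ ⟨v, hv, rfl⟩
      exact hmx v hv
    obtain ⟨c, hc, hci, hcP⟩ := hc2 a u (hst u hu hmx)
    refine ⟨c, hc, ?_, ?_⟩
    · rw [hci 0 (by omega)]
      simp [cs]
    · rw [← hcP]
      exact hG.csSup_eq.symm
  -- every polygon is at most as long
  have hle : ∀ c, Pol L (N + 1) c →
      SS (fun s => t * x s) y (N + 1) c ≤ GG x y L N t (c 0) := by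
    intro c hc
    obtain ⟨u, hu, -, -, hP⟩ := hc1 c hc
    rw [← hP]
    obtain ⟨⟨v, hv, hmx⟩, -⟩ := hex (c 0)
    refine le_csSup ⟨PP (fun s => t * x s) y L (c 0) v, ?_⟩ ⟨u, hu, rfl⟩
    rintro _ ⟨w, hw, rfl⟩
    exact hmx w hw
  constructor
  · rintro ⟨m, hm⟩
    have key : ∀ a, GG x y L N t a = m := by
      intro a
      apply le_antisymm
      · obtain ⟨c, hc, -, hS⟩ := hmax a
        rw [← hS]
        exact hm.le c hc
      · obtain ⟨c, hc, hc0, hS⟩ := hm.ex a
        rw [← hS, ← hc0]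
        exact hle c hc
    intro a b
    rw [key a, key b]
  · intro hG
    refine ⟨GG x y L N t 0, ?_, ?_⟩
    · intro c hc
      rw [hG 0 (c 0)]
      exact hle c hc
    · intro a
      obtain ⟨c, hc, hc0, hS⟩ := hmax a
      exact ⟨c, hc, hc0, hS.trans (hG a 0)⟩

end Pool.Agent.W405.BLGC
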