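import Pool.Agent.W600.DM.Stm

set_option autoImplicit false

open Filter Topology

namespace Pool.Agent.W405.DMY

open Pool.Agent.W600.DM

/-- a root of `(1+s)^m = 1+t` with `‖s‖ ≤ ‖t‖/‖m‖`. -/
lemma root_lemma {K : Type} [NontriviallyNormedField K] [IsUltrametricDist K]
    [CharZero K] [IsAlgClosed K] (m : ℕ) (hm : 1 ≤ m) (t : K) :
    ∃ s : K, (1 + s) ^ m = 1 + t ∧ ‖s‖ ≤ ‖t‖ / ‖(m : K)‖ := by
  classical
  by_cases ht : t = 0
  · exact ⟨0, by simp [ht], by simp [ht]⟩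
  set g : Polynomial K := (Polynomial.X + 1) ^ m - Polynomial.C (1 + t) with hg
  have hg0 : g.eval 0 = -t := by simp [hg]
  have hg' : g.derivative.eval 0 = (m : K) := by
    simp [hg, Polynomial.derivative_pow]
  have hne : g.eval 0 ≠ 0 := by rw [hg0]; simpa using ht
  have hgne : g ≠ 0 := by
    intro h
    rw [h] at hne
    simp at hne
  have hsp : g.Splits := IsAlgClosed.splits g
  have h1 := hsp.eval_derivative_div_eval_of_ne_zero hne
  rw [hg0, hg'] at h1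
  have hm0 : (m : K) ≠ 0 := by
    have : m ≠ 0 := by omega
    exact_mod_cast this
  have hmn : 0 < ‖(m : K)‖ := norm_pos_iff.mpr hm0
  have htn : 0 < ‖t‖ := norm_pos_iff.mpr ht
  haveI : Nonempty K := ⟨0⟩
  obtain ⟨z, hz1, hz2⟩ := IsUltrametricDist.exists_norm_multiset_sum_le g.roots
    (f := fun z : K => 1 / (0 - z))
  have hroots : g.roots ≠ 0 := by
    intro h
    rw [h] at h1
    simp at h1
    rcases h1 with h1 | h1
    · omega
    · exact ht h1
  have hz : z ∈ g.roots := hz1 hroots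
  refine ⟨z, ?_, ?_⟩
  · have := (Polynomial.mem_roots hgne).mp hz
    rw [Polynomial.IsRoot.def, hg] at this
    simp at this
    rw [add_comm 1 z]
    exact sub_eq_zero.mp this
  · rw [← h1] at hz2
    have e1 : ‖(m : K) / -t‖ = ‖(m : K)‖ / ‖t‖ := by rw [norm_div, norm_neg]
    have e2 : ‖1 / (0 - z)‖ = 1 / ‖z‖ := by rw [norm_div, norm_one, zero_sub, norm_neg]
    rw [e1, e2] at hz2
    have hz0 : z ≠ 0 := by
      intro h
      rw [h, norm_zero, div_zero] at hz2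
      have : 0 < ‖(m : K)‖ / ‖t‖ := by positivity
      linarith
    have hzn : 0 < ‖z‖ := norm_pos_iff.mpr hz0
    rw [div_le_div_iff₀ htn hzn] at hz2
    rw [le_div_iff₀ hmn]
    linarith

/-- `‖v^m - 1‖ ≤ ‖v - 1‖` for `‖v - 1‖ ≤ 1`. -/
lemma norm_pow_sub_one_le {K : Type} [NontriviallyNormedField K] [IsUltrametricDist K]
    (v : K) (hv : ‖v - 1‖ ≤ 1) (m : ℕ) : ‖v ^ m - 1‖ ≤ ‖v - 1‖ := by
  have hv1 : ‖v‖ ≤ 1 := by
    have : v = (v - 1) + 1 := by ring
    rw [this]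
    refine (IsUltrametricDist.norm_add_le_max _ _).trans ?_
    simp [hv]
  induction m with
  | zero => simp
  | succ m ih =>
    have : v ^ (m + 1) - 1 = v ^ m * (v - 1) + (v ^ m - 1) := by ring
    rw [this]
    refine (IsUltrametricDist.norm_add_le_max _ _).trans (max_le ?_ ih)
    rw [norm_mul, norm_pow]
    have : ‖v‖ ^ m ≤ 1 := pow_le_one₀ (norm_nonneg _) hv1
    nlinarith [norm_nonneg (v - 1)]

/-- super-exponential decay beats geometric growth. -/
lemma decay (q a : ℝ) (hq0 : 0 < q) (hq1 : q < 1) (ha : 0 < a) (d : ℕ) (hd : 2 ≤ d) :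
    ∃ n₀ : ℕ, ∀ n ≥ n₀, q ^ (d ^ n) * a ^ (n + 1) ≤ 1 := by
  have h1 : Tendsto (fun N : ℕ => q ^ N * a) atTop (𝓝 (0 * a)) :=
    (tendsto_pow_atTop_nhds_zero_of_lt_one hq0.le hq1).mul_const a
  rw [zero_mul] at h1
  obtain ⟨N, hN⟩ := ((h1.eventually (gt_mem_nhds (zero_lt_one (α := ℝ)))).exists)
  have h2 : Tendsto (fun n : ℕ => (n : ℝ) ^ 1 * (1 / 2 : ℝ) ^ n) atTop (𝓝 0) :=
    tendsto_pow_const_mul_const_pow_of_abs_lt_one 1 (by rw [abs_of_pos] <;> norm_num)
  have h3 : ∀ᶠ n : ℕ in atTop, N * (n + 1) ≤ d ^ n := by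
    have h2' : ∀ᶠ n : ℕ in atTop, (n : ℝ) ^ 1 * (1 / 2 : ℝ) ^ n < 1 / (2 * (N + 1)) :=
      h2.eventually (gt_mem_nhds (by positivity))
    filter_upwards [h2', eventually_ge_atTop 1] with n hn hn1
    have hpos : (0 : ℝ) < 2 ^ n := by positivity
    rw [pow_one, one_div, inv_pow, ← div_eq_mul_inv, div_lt_div_iff₀ hpos (by positivity)] at hn
    have h4 : (N : ℝ) * (n + 1) ≤ 2 ^ n := by
      have : (1 : ℝ) ≤ n := by exact_mod_cast hn1
      have hN0 : (0 : ℝ) ≤ N := Nat.cast_nonneg N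
      nlinarith
    have h5 : N * (n + 1) ≤ 2 ^ n := by exact_mod_cast h4
    exact h5.trans (Nat.pow_le_pow_left hd n)
  obtain ⟨n₀, hn₀⟩ := eventually_atTop.mp h3
  refine ⟨n₀, fun n hn => ?_⟩
  have h6 := hn₀ n hn
  calc q ^ (d ^ n) * a ^ (n + 1) ≤ q ^ (N * (n + 1)) * a ^ (n + 1) := by
        gcongr ?_ * _
        exact pow_le_pow_of_le_one hq0.le hq1.le h6
    _ = (q ^ N * a) ^ (n + 1) := by rw [mul_pow, ← pow_mul]
    _ ≤ 1 := pow_le_one₀ (by positivity) hN.le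

theorem y_main : S_Y := by
  intro K _ _ _ _ _ d hd hdK x r κ hκ0 hκ1 hx0 hxr hr
  have hd0 : (d : K) ≠ 0 := by
    have : d ≠ 0 := by omega
    exact_mod_cast this
  have hdn : 0 < ‖(d : K)‖ := norm_pos_iff.mpr hd0
  -- `1 + r n ≠ 0`
  have hr1 : ∀ n, ‖r n‖ < 1 := by
    intro n
    refine (hr n).trans_lt ?_
    exact pow_lt_one₀ hκ0 hκ1 (by positivity)
  have hrne : ∀ n, 1 + r n ≠ 0 := by
    intro n h
    have : r n = -1 := by linear_combination h
    have h2 := hr1 n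
    rw [this, norm_neg, norm_one] at h2
    exact lt_irrefl _ h2
  -- the roots
  have hs : ∀ n, ∃ s : K, (1 + s) ^ (d ^ (n + 1)) = 1 + r n ∧
      ‖s‖ ≤ ‖r n‖ / ‖((d ^ (n + 1) : ℕ) : K)‖ := fun n =>
    root_lemma (d ^ (n + 1)) (Nat.one_le_pow _ _ (by omega)) (r n)
  choose s hs1 hs2 using hs
  let z : ℕ → K := fun n => Nat.rec (x 0) (fun n zn => zn * (1 + s n)) n
  have hz0 : z 0 = x 0 := rfl
  have hzs : ∀ n, z (n + 1) = z n * (1 + s n) := fun n => rfl
  have hsne : ∀ n, 1 + s n ≠ 0 := by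
    intro n h
    have h2 := hs1 n
    rw [h, zero_pow (by positivity)] at h2
    exact hrne n h2.symm
  have hzne : ∀ n, z n ≠ 0 := by
    intro n
    induction n with
    | zero => exact hx0
    | succ n ih => rw [hzs]; exact mul_ne_zero ih (hsne n)
  have hzx : ∀ n, z n ^ (d ^ n) = x n := by
    intro n
    induction n with
    | zero => simp [hz0]
    | succ n ih =>
      rw [hzs, mul_pow, hs1, pow_succ, pow_mul, ih, hxr]
  -- the rate
  set q : ℝ := max (Real.sqrt κ) (1 / 2) with hq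
  have hq0 : 0 < q := lt_of_lt_of_le (by norm_num) (le_max_right _ _)
  have hq1 : q < 1 := by
    refine max_lt ?_ (by norm_num)
    rw [Real.sqrt_lt' one_pos]
    simpa using hκ1
  have hκq : κ ≤ q ^ 2 := by
    have h1 : Real.sqrt κ ≤ q := le_max_left _ _
    calc κ = Real.sqrt κ ^ 2 := (Real.sq_sqrt hκ0).symm
      _ ≤ q ^ 2 := by
        have := Real.sqrt_nonneg κ
        gcongr
  obtain ⟨n₀, hn₀⟩ := decay q ‖(d : K)‖⁻¹ hq0 hq1 (by positivity) d hd
  have hsq : ∀ n ≥ n₀, ‖s n‖ ≤ q ^ (d ^ n) := by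
    intro n hn
    calc ‖s n‖ ≤ ‖r n‖ / ‖((d ^ (n + 1) : ℕ) : K)‖ := hs2 n
      _ = ‖r n‖ * ‖(d : K)‖⁻¹ ^ (n + 1) := by
        rw [Nat.cast_pow, norm_pow, inv_pow, div_eq_mul_inv]
      _ ≤ (q ^ 2) ^ (d ^ n) * ‖(d : K)‖⁻¹ ^ (n + 1) := by
        gcongr
        exact (hr n).trans (pow_le_pow_left₀ hκ0 hκq _)
      _ = q ^ (d ^ n) * (q ^ (d ^ n) * ‖(d : K)‖⁻¹ ^ (n + 1)) := by
        rw [← pow_mul, mul_comm 2, pow_mul]; ring
      _ ≤ q ^ (d ^ n) * 1 := by
        gcongr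
        exact hn₀ n hn
      _ = q ^ (d ^ n) := mul_one _
  have hqd : ∀ n, q ^ (d ^ n) < 1 := fun n => pow_lt_one₀ hq0.le hq1 (by positivity)
  -- norms are constant from `n₀` on
  have hzn : ∀ k, ‖z (n₀ + k)‖ = ‖z n₀‖ := by
    intro k
    induction k with
    | zero => rfl
    | succ k ih =>
      rw [← add_assoc, hzs, norm_mul, ih]
      have h1 : ‖s (n₀ + k)‖ < 1 := (hsq _ (by omega)).trans_lt (hqd _)
      have h2 : ‖1 + s (n₀ + k)‖ = 1 := by
        rw [IsUltrametricDist.norm_add_eq_max_of_norm_ne_norm]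
        · rw [norm_one]; exact max_eq_left h1.le
        · rw [norm_one]; exact h1.ne'
      rw [h2, mul_one]
  have hR : 0 < ‖z n₀‖ := norm_pos_iff.mpr (hzne n₀)
  -- differences
  have hanti : ∀ m n, n ≤ m → q ^ (d ^ m) ≤ q ^ (d ^ n) := by
    intro m n hnm
    exact pow_le_pow_of_le_one hq0.le hq1.le (Nat.pow_le_pow_right (by omega) hnm)
  have hdiff : ∀ n ≥ n₀, ‖z (n + 1) - z n‖ ≤ ‖z n₀‖ * q ^ (d ^ n) := by
    intro n hn
    rw [hzs]
    have : z n * (1 + s n) - z n = z n * s n := by ring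
    rw [this, norm_mul]
    obtain ⟨k, rfl⟩ := Nat.exists_eq_add_of_le hn
    rw [hzn k]
    gcongr
    exact hsq _ hn
  have hdiff2 : ∀ n ≥ n₀, ∀ k, ‖z (n + k) - z n‖ ≤ ‖z n₀‖ * q ^ (d ^ n) := by
    intro n hn k
    induction k with
    | zero => simp only [add_zero, sub_self, norm_zero]; positivity
    | succ k ih =>
      have : z (n + (k + 1)) - z n = (z (n + k + 1) - z (n + k)) + (z (n + k) - z n) := by
        rw [← add_assoc]; ring
      rw [this]
      refine (IsUltrametricDist.norm_add_le_max _ _).trans (max_le ?_ ih)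
      refine (hdiff (n + k) (by omega)).trans ?_
      gcongr ‖z n₀‖ * ?_
      exact hanti _ _ (by omega)
  have hcau : CauchySeq (fun k => z (n₀ + k)) := by
    refine cauchySeq_of_le_geometric q ‖z n₀‖ hq1 ?_
    intro k
    rw [dist_comm, dist_eq_norm]
    refine (hdiff (n₀ + k) (by omega)).trans ?_
    gcongr ‖z n₀‖ * ?_
    refine pow_le_pow_of_le_one hq0.le hq1.le ?_
    have h1 : n₀ + k < d ^ (n₀ + k) := Nat.lt_pow_self (by omega)
    omega
  obtain ⟨b, hb⟩ := cauchySeq_tendsto_of_complete hcau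
  have hb' : Tendsto z atTop (𝓝 b) := by
    have : Tendsto (fun k => z (k + n₀)) atTop (𝓝 b) := by
      refine hb.congr ?_
      intro k
      rw [add_comm]
    exact (tendsto_add_atTop_iff_nat n₀).mp this
  have hbn : ‖b‖ = ‖z n₀‖ := by
    have h1 : Tendsto (fun k => ‖z (n₀ + k)‖) atTop (𝓝 ‖b‖) := hb.norm
    have h2 : Tendsto (fun k => ‖z (n₀ + k)‖) atTop (𝓝 ‖z n₀‖) := by
      simp only [hzn]; exact tendsto_const_nhds
    exact tendsto_nhds_unique h1 h2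
  have hb0 : b ≠ 0 := by
    rw [← norm_pos_iff, hbn]; exact hR
  have hbz : ∀ n ≥ n₀, ‖b - z n‖ ≤ ‖z n₀‖ * q ^ (d ^ n) := by
    intro n hn
    have h1 : Tendsto (fun k => ‖z (n + k) - z n‖) atTop (𝓝 ‖b - z n‖) := by
      refine Tendsto.norm (Tendsto.sub_const ?_ _)
      refine ((tendsto_add_atTop_iff_nat n).mpr hb').congr ?_
      intro k
      rw [add_comm]
    exact le_of_tendsto h1 (Eventually.of_forall (hdiff2 n hn))
  have hmain : ∀ n ≥ n₀, ‖x n / b ^ (d ^ n) - 1‖ ≤ q ^ (d ^ n) := by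
    intro n hn
    have h1 : ‖z n / b - 1‖ ≤ q ^ (d ^ n) := by
      have : z n / b - 1 = -(b - z n) / b := by field_simp; ring
      rw [this, norm_div, norm_neg, hbn, div_le_iff₀ hR, mul_comm]
      exact hbz n hn
    have h2 := norm_pow_sub_one_le (z n / b) (h1.trans (hqd n).le) (d ^ n)
    rw [div_pow, hzx] at h2
    exact h2.trans h1
  -- absorb the finitely many other `n`
  refine ⟨b, 1 + ∑ n ∈ Finset.range n₀, ‖x n / b ^ (d ^ n) - 1‖ / q ^ (d ^ n), q, hb0, hq0.le,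
    hq1, ?_⟩
  intro n
  have hqp : 0 < q ^ (d ^ n) := by positivity
  have hsum : 0 ≤ ∑ n ∈ Finset.range n₀, ‖x n / b ^ (d ^ n) - 1‖ / q ^ (d ^ n) :=
    Finset.sum_nonneg fun i _ => by positivity
  by_cases hn : n₀ ≤ n
  · refine (hmain n hn).trans ?_
    nlinarith
  · have h1 : ‖x n / b ^ (d ^ n) - 1‖ / q ^ (d ^ n) ≤
        ∑ n ∈ Finset.range n₀, ‖x n / b ^ (d ^ n) - 1‖ / q ^ (d ^ n) :=
      Finset.single_le_sum (f := fun n => ‖x n / b ^ (d ^ n) - 1‖ / q ^ (d ^ n))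
        (fun i _ => by positivity) (Finset.mem_range.mpr (by omega))
    rw [div_le_iff₀ hqp] at h1
    nlinarith

end Pool.Agent.W405.DMY
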