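import Pool.Agent.W792.GK.Stm

/-!
Project GK (helper792), part FP (helper405): the fixed point equation for large `z`.
-/

set_option autoImplicit false

namespace Pool.Agent.W405.GKFp

open MeasureTheory Pool.Agent.W792.GK
open scoped Matrix.Norms.L2Operator NNReal

noncomputable section

variable {Q : Type} [Fintype Q] [DecidableEq Q]

theorem opB_iff (A : Matrix Q Q ℂ) {c : ℝ} (hc : 0 ≤ c) : OpB A c ↔ ‖A‖ ≤ c := by
  constructor
  · intro h
    rw [Matrix.cstar_norm_def]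
    refine ContinuousLinearMap.opNorm_le_bound _ hc fun x => ?_
    have h1 := h x.ofLp
    have h2 : ‖(Matrix.toEuclideanCLM (n := Q) (𝕜 := ℂ) A) x‖ ^ 2 ≤ (c * ‖x‖) ^ 2 := by
      rw [mul_pow, EuclideanSpace.norm_sq_eq, EuclideanSpace.norm_sq_eq]
      simpa [Matrix.ofLp_toEuclideanCLM] using h1
    exact le_of_sq_le_sq h2 (by positivity)
  · intro h u
    have h1 := Matrix.l2_opNorm_mulVec A (WithLp.toLp 2 u)
    have h2 : ‖(WithLp.toLp 2 (A.mulVec u) : EuclideanSpace ℂ Q)‖ ≤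
        c * ‖(WithLp.toLp 2 u : EuclideanSpace ℂ Q)‖ :=
      h1.trans (mul_le_mul_of_nonneg_right h (norm_nonneg _))
    have h3 := pow_le_pow_left₀ (norm_nonneg _) h2 2
    rw [mul_pow, EuclideanSpace.norm_sq_eq, EuclideanSpace.norm_sq_eq] at h3
    simpa using h3

theorem norm_one_le : ‖(1 : Matrix Q Q ℂ)‖ ≤ 1 := by
  rw [← opB_iff _ zero_le_one]
  intro u
  simp

theorem meas_det {Ω : Type} [MeasurableSpace Ω] (M : Ω → Matrix Q Q ℂ)
    (h : ∀ x y, Measurable fun w => M w x y) : Measurable fun w => (M w).det := by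
  simp only [Matrix.det_apply']
  refine Finset.measurable_sum _ fun σ _ => ?_
  exact (Finset.measurable_prod _ fun i _ => h _ _).const_mul _

theorem meas_inv {Ω : Type} [MeasurableSpace Ω] (M : Ω → Matrix Q Q ℂ)
    (h : ∀ x y, Measurable fun w => M w x y) (x y : Q) : Measurable fun w => (M w)⁻¹ x y := by
  simp only [Matrix.inv_def, Matrix.smul_apply, Matrix.adjugate_apply, smul_eq_mul,
    Ring.inverse_eq_inv']
  refine (meas_det M h).inv.mul ?_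
  refine meas_det (fun w => (M w).updateRow y (Pi.single x 1)) ?_
  intro a b
  by_cases hab : a = y
  · subst hab
    simp only [Matrix.updateRow_self]
    exact measurable_const
  · simp only [Matrix.updateRow_ne hab]
    exact h a b

/-- the matrix with resolvent -/
def Xm (s : ℝ) (z : ℂ) (D g : Matrix Q Q ℂ) : Matrix Q Q ℂ :=
  D - z • (1 : Matrix Q Q ℂ) - ((s ^ 2 : ℝ) : ℂ) • g

theorem bound_D {C s : ℝ} (hC : 0 ≤ C) (hs : 0 < s) {z : ℂ} (hz : 8 * (C + s + 1) ≤ ‖z‖)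
    {D g : Matrix Q Q ℂ} (hD : OpB D C) (hg : ‖g‖ ≤ 2 / ‖z‖) :
    ‖D - ((s ^ 2 : ℝ) : ℂ) • g‖ ≤ ‖z‖ / 8 := by
  have hz0 : 0 < ‖z‖ := by linarith
  have h1 : ‖D‖ ≤ C := (opB_iff D hC).1 hD
  have h2 : ‖((s ^ 2 : ℝ) : ℂ) • g‖ ≤ s / 4 := by
    rw [norm_smul, Complex.norm_real, Real.norm_of_nonneg (by positivity)]
    calc s ^ 2 * ‖g‖ ≤ s ^ 2 * (2 / ‖z‖) := by gcongr
      _ ≤ s ^ 2 * (2 / (8 * s)) := by
          gcongr
          linarith
      _ = s / 4 := by field_simp; ring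
  calc _ ≤ ‖D‖ + ‖((s ^ 2 : ℝ) : ℂ) • g‖ := norm_sub_le _ _
    _ ≤ C + s / 4 := add_le_add h1 h2
    _ ≤ _ := by linarith

theorem unit_X {C s : ℝ} (hC : 0 ≤ C) (hs : 0 < s) {z : ℂ} (hz : 8 * (C + s + 1) ≤ ‖z‖)
    {D g : Matrix Q Q ℂ} (hD : OpB D C) (hg : ‖g‖ ≤ 2 / ‖z‖) :
    IsUnit (Xm s z D g) := by
  have hz0 : 0 < ‖z‖ := by linarith
  have hz1 : z ≠ 0 := norm_pos_iff.1 hz0
  have hb := bound_D hC hs hz hD hg
  have : Xm s z D g = (-z) • (1 - z⁻¹ • (D - ((s ^ 2 : ℝ) : ℂ) • g)) := by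
    unfold Xm
    rw [smul_sub, smul_smul, neg_mul, mul_inv_cancel₀ hz1, neg_smul, neg_smul, one_smul]
    abel
  rw [this]
  have h1 : ‖z⁻¹ • (D - ((s ^ 2 : ℝ) : ℂ) • g)‖ < 1 := by
    rw [norm_smul, norm_inv]
    calc ‖z‖⁻¹ * _ ≤ ‖z‖⁻¹ * (‖z‖ / 8) := by gcongr
      _ = 1 / 8 := by field_simp
      _ < 1 := by norm_num
  have h2 : IsUnit (1 - z⁻¹ • (D - ((s ^ 2 : ℝ) : ℂ) • g)) := isUnit_one_sub_of_norm_lt_one h1
  have h3 : IsUnit (-z) := (neg_ne_zero.2 hz1).isUnit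
  have := (h3.unit).isUnit
  have h4 : IsUnit ((-z) • (1 : Matrix Q Q ℂ)) := by
    refine ⟨⟨(-z) • 1, (-z)⁻¹ • 1, ?_, ?_⟩, rfl⟩ <;>
    simp [hz1]
  have h5 := h4.mul h2
  simpa using h5

theorem norm_Y {C s : ℝ} (hC : 0 ≤ C) (hs : 0 < s) {z : ℂ} (hz : 8 * (C + s + 1) ≤ ‖z‖)
    {D g : Matrix Q Q ℂ} (hD : OpB D C) (hg : ‖g‖ ≤ 2 / ‖z‖) :
    ‖(Xm s z D g)⁻¹‖ ≤ 2 / ‖z‖ := by
  have hz0 : 0 < ‖z‖ := by linarith
  have hb := bound_D hC hs hz hD hg
  have hu := (Matrix.isUnit_iff_isUnit_det _).1 (unit_X hC hs hz hD hg)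
  have h1 := Matrix.mul_nonsing_inv _ hu
  set Y := (Xm s z D g)⁻¹ with hY
  have h2 : z • Y = (D - ((s ^ 2 : ℝ) : ℂ) • g) * Y - 1 := by
    rw [← h1]
    unfold Xm
    simp only [sub_mul, smul_mul_assoc, one_mul]
    abel
  have h3 : ‖z‖ * ‖Y‖ ≤ ‖z‖ / 8 * ‖Y‖ + 1 := by
    rw [← norm_smul, h2]
    calc _ ≤ ‖(D - ((s ^ 2 : ℝ) : ℂ) • g) * Y‖ + ‖(1 : Matrix Q Q ℂ)‖ := norm_sub_le _ _
      _ ≤ ‖(D - ((s ^ 2 : ℝ) : ℂ) • g)‖ * ‖Y‖ + 1 := add_le_add (norm_mul_le _ _) norm_one_le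
      _ ≤ _ := by gcongr
  rw [le_div_iff₀ hz0]
  nlinarith [norm_nonneg Y]

theorem sum_single (M : Matrix Q Q ℂ) :
    M = ∑ x, ∑ y, (M x y) • Matrix.single x y (1 : ℂ) := by
  conv_lhs => rw [Matrix.matrix_eq_sum_single M]
  refine Finset.sum_congr rfl fun x _ => Finset.sum_congr rfl fun y _ => ?_
  rw [Matrix.smul_single, smul_eq_mul, mul_one]

theorem entry_le (M : Matrix Q Q ℂ) {c : ℝ} (hc : 0 ≤ c) (h : ‖M‖ ≤ c) (x y : Q) :
    ‖M x y‖ ≤ c := by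
  have h1 := (opB_iff M hc).2 h (Pi.single y 1)
  have h2 : ∑ i, ‖(M.mulVec (Pi.single y 1)) i‖ ^ 2 = ∑ i, ‖M i y‖ ^ 2 := by
    simp
  have h3 : ∑ i, ‖(Pi.single y (1 : ℂ) : Q → ℂ) i‖ ^ 2 = 1 := by
    rw [Finset.sum_eq_single y]
    · simp
    · intro b _ hb; simp [hb]
    · simp
  rw [h2, h3, mul_one] at h1
  have h4 : ‖M x y‖ ^ 2 ≤ ∑ i, ‖M i y‖ ^ 2 :=
    Finset.single_le_sum (f := fun i => ‖M i y‖ ^ 2) (fun _ _ => by positivity) (Finset.mem_univ x)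
  exact le_of_sq_le_sq (h4.trans h1) hc

theorem integ_entry {Ω : Type} [MeasurableSpace Ω] (μ : Measure Ω) [IsProbabilityMeasure μ]
    (Y : Ω → Matrix Q Q ℂ) (hm : ∀ x y, Measurable fun w => Y w x y) {c : ℝ} (hc : 0 ≤ c)
    (hb : ∀ w, ‖Y w‖ ≤ c) (x y : Q) : Integrable (fun w => Y w x y) μ :=
  Integrable.of_bound (hm x y).aestronglyMeasurable c
    (Filter.Eventually.of_forall fun w => entry_le _ hc (hb w) x y)

theorem integ {Ω : Type} [MeasurableSpace Ω] (μ : Measure Ω) [IsProbabilityMeasure μ]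
    (Y : Ω → Matrix Q Q ℂ) (hm : ∀ x y, Measurable fun w => Y w x y) {c : ℝ} (hc : 0 ≤ c)
    (hb : ∀ w, ‖Y w‖ ≤ c) : Integrable Y μ := by
  have : Y = fun w => ∑ x, ∑ y, (Y w x y) • Matrix.single x y (1 : ℂ) := by
    funext w; exact sum_single _
  rw [this]
  refine integrable_finset_sum _ fun x _ => integrable_finset_sum _ fun y _ => ?_
  exact (integ_entry μ Y hm hc hb x y).smul_const _

/-- entrywise mean -/
def mean {Ω : Type} [MeasurableSpace Ω] (μ : Measure Ω) (Y : Ω → Matrix Q Q ℂ) : Matrix Q Q ℂ :=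
  fun x y => ∫ w, Y w x y ∂μ

theorem mean_eq {Ω : Type} [MeasurableSpace Ω] (μ : Measure Ω) [IsProbabilityMeasure μ]
    (Y : Ω → Matrix Q Q ℂ) (hm : ∀ x y, Measurable fun w => Y w x y) {c : ℝ} (hc : 0 ≤ c)
    (hb : ∀ w, ‖Y w‖ ≤ c) : mean μ Y = ∫ w, Y w ∂μ := by
  have : Y = fun w => ∑ x, ∑ y, (Y w x y) • Matrix.single x y (1 : ℂ) := by
    funext w; exact sum_single _
  conv_rhs => rw [this]
  rw [integral_finset_sum]
  swap
  · intro x _
    refine integrable_finset_sum _ fun y _ => ?_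
    exact (integ_entry μ Y hm hc hb x y).smul_const _
  conv_lhs => rw [sum_single (mean μ Y)]
  refine Finset.sum_congr rfl fun x _ => ?_
  rw [integral_finset_sum]
  swap
  · intro y _
    exact (integ_entry μ Y hm hc hb x y).smul_const _
  refine Finset.sum_congr rfl fun y _ => ?_
  rw [integral_smul_const]
  rfl

theorem main : Pool.Agent.W792.GK.S_FP := by
  intro Q _ _ C s hC hs z hz Ω _ μ _ D hDm hD
  have hz0 : 0 < ‖z‖ := by linarith
  have hr : 0 ≤ 2 / ‖z‖ := by positivity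
  set r := 2 / ‖z‖ with hrdef
  have hXm : ∀ g : Matrix Q Q ℂ, ∀ x y, Measurable fun w => Xm s z (D w) g x y := by
    intro g x y
    unfold Xm
    simp only [Matrix.sub_apply]
    exact ((hDm x y).sub measurable_const).sub measurable_const
  have hYm : ∀ g : Matrix Q Q ℂ, ∀ x y, Measurable fun w => (Xm s z (D w) g)⁻¹ x y :=
    fun g => meas_inv _ (hXm g)
  have hYn : ∀ g : Matrix Q Q ℂ, ‖g‖ ≤ r → ∀ w, ‖(Xm s z (D w) g)⁻¹‖ ≤ r :=
    fun g hg w => norm_Y hC hs hz (hD w) hg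
  let Φ : Matrix Q Q ℂ → Matrix Q Q ℂ := fun g => mean μ fun w => (Xm s z (D w) g)⁻¹
  have hΦ : ∀ g, ‖g‖ ≤ r → Φ g = ∫ w, (Xm s z (D w) g)⁻¹ ∂μ := fun g hg =>
    mean_eq μ _ (hYm g) hr (hYn g hg)
  have hmaps : Set.MapsTo Φ (Metric.closedBall 0 r) (Metric.closedBall 0 r) := by
    intro g hg
    rw [mem_closedBall_zero_iff] at hg ⊢
    rw [hΦ g hg]
    have := norm_integral_le_of_norm_le_const (μ := μ) (f := fun w => (Xm s z (D w) g)⁻¹) (C := r)
      (Filter.Eventually.of_forall fun w => hYn g hg w)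
    simpa using this
  have hs2 : s ^ 2 * (r * r) ≤ 1 / 16 := by
    have h1 : r ≤ 2 / (8 * s) := by
      rw [hrdef]
      gcongr
      linarith
    have h2 : s * r ≤ 1 / 4 := by
      calc s * r ≤ s * (2 / (8 * s)) := by gcongr
        _ = 1 / 4 := by field_simp; ring
    have h3 : 0 ≤ s * r := by positivity
    nlinarith
  have hlip : ∀ g g' : Matrix Q Q ℂ, ‖g‖ ≤ r → ‖g'‖ ≤ r → ‖Φ g - Φ g'‖ ≤ 1 / 16 * ‖g - g'‖ := by
    intro g g' hg hg'
    rw [hΦ g hg, hΦ g' hg', ← integral_sub (integ μ _ (hYm g) hr (hYn g hg))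
      (integ μ _ (hYm g') hr (hYn g' hg'))]
    have hpt : ∀ w, ‖(Xm s z (D w) g)⁻¹ - (Xm s z (D w) g')⁻¹‖ ≤ 1 / 16 * ‖g - g'‖ := by
      intro w
      have hu := (Matrix.isUnit_iff_isUnit_det _).1 (unit_X hC hs hz (hD w) hg)
      have hu' := (Matrix.isUnit_iff_isUnit_det _).1 (unit_X hC hs hz (hD w) hg')
      have h1 := Matrix.nonsing_inv_mul _ hu
      have h2 := Matrix.mul_nonsing_inv _ hu'
      have e : (Xm s z (D w) g)⁻¹ - (Xm s z (D w) g')⁻¹ =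
          (Xm s z (D w) g)⁻¹ * (Xm s z (D w) g' - Xm s z (D w) g) * (Xm s z (D w) g')⁻¹ := by
        rw [mul_sub, sub_mul, mul_assoc, h2, h1, mul_one, one_mul]
      have e2 : Xm s z (D w) g' - Xm s z (D w) g = ((s ^ 2 : ℝ) : ℂ) • (g - g') := by
        unfold Xm
        rw [smul_sub]
        abel
      rw [e, e2]
      calc _ ≤ ‖(Xm s z (D w) g)⁻¹ * (((s ^ 2 : ℝ) : ℂ) • (g - g'))‖ * ‖(Xm s z (D w) g')⁻¹‖ :=
            norm_mul_le _ _
        _ ≤ (‖(Xm s z (D w) g)⁻¹‖ * ‖((s ^ 2 : ℝ) : ℂ) • (g - g')‖) *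
              ‖(Xm s z (D w) g')⁻¹‖ := by
            gcongr
            exact norm_mul_le _ _
        _ ≤ (r * ‖((s ^ 2 : ℝ) : ℂ) • (g - g')‖) * r := by
            gcongr
            · exact hYn g hg w
            · exact hYn g' hg' w
        _ = s ^ 2 * (r * r) * ‖g - g'‖ := by
            rw [norm_smul, Complex.norm_real, Real.norm_of_nonneg (by positivity)]
            ring
        _ ≤ _ := by gcongr
    have := norm_integral_le_of_norm_le_const (μ := μ)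
      (f := fun w => (Xm s z (D w) g)⁻¹ - (Xm s z (D w) g')⁻¹) (C := 1 / 16 * ‖g - g'‖)
      (Filter.Eventually.of_forall hpt)
    simpa using this
  have hcomp : IsComplete (Metric.closedBall (0 : Matrix Q Q ℂ) r) := by
    have : CompleteSpace (Matrix Q Q ℂ) := FiniteDimensional.complete ℂ _
    exact Metric.isClosed_closedBall.isComplete
  have hcon : ContractingWith (1 / 16 : ℝ≥0) (hmaps.restrict Φ _ _) := by
    refine ⟨by
      rw [div_lt_one (by norm_num)]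
      norm_num, ?_⟩
    refine LipschitzWith.of_dist_le_mul fun a b => ?_
    have := hlip a.1 b.1 (mem_closedBall_zero_iff.1 a.2) (mem_closedBall_zero_iff.1 b.2)
    rw [Subtype.dist_eq, Subtype.dist_eq, dist_eq_norm, dist_eq_norm]
    simpa using this
  obtain ⟨g, hg, hfix, -⟩ := hcon.exists_fixedPoint' hcomp hmaps
    (Metric.mem_closedBall_self hr) (edist_ne_top _ _)
  rw [mem_closedBall_zero_iff] at hg
  refine ⟨g, fun w => (Xm s z (D w) g)⁻¹, hYm g, (opB_iff g hr).2 hg,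
    fun w => (opB_iff _ hr).2 (hYn g hg w), ?_, ?_, ?_⟩
  · intro w
    exact Matrix.nonsing_inv_mul _ ((Matrix.isUnit_iff_isUnit_det _).1 (unit_X hC hs hz (hD w) hg))
  · intro w
    exact Matrix.mul_nonsing_inv _ ((Matrix.isUnit_iff_isUnit_det _).1 (unit_X hC hs hz (hD w) hg))
  · intro x y
    exact congrFun (congrFun hfix x) y

end

end Pool.Agent.W405.GKFp
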