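import Pool.Agent.W749.JI.Stm

/-!
Project JI (helper749), part CPE (helper405): counting polynomials for the empty type.
-/

set_option autoImplicit false

namespace Pool.Agent.W405.JICPE

open Finset Polynomial
open Pool.Agent.W428.MOT Pool.Agent.W749.NM Pool.Agent.W749.JI
open Pool.Agent.W426.SM (gord ford)

/-- the weight -/
noncomputable def w {n : ℕ} (N : ℕ) (u : Fin n → ℕ) : Polynomial ℤ :=
  ∏ v, if u v ≤ N then (1 - X) * X ^ u v else X ^ (N + 1)

theorem tel (N : ℕ) : ∑ t ∈ Icc 1 N, ((1 - X) * X ^ t : Polynomial ℤ) = X - X ^ (N + 1) := by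
  induction N with
  | zero => simp
  | succ N ih =>
    rw [Finset.sum_Icc_succ_top (by omega), ih]
    ring

theorem one (N : ℕ) : ∑ t ∈ Icc 1 (N + 1),
    (if t ≤ N then (1 - X) * X ^ t else X ^ (N + 1) : Polynomial ℤ) = X := by
  rw [Finset.sum_Icc_succ_top (by omega), if_neg (by omega)]
  have : ∑ t ∈ Icc 1 N, (if t ≤ N then (1 - X) * X ^ t else X ^ (N + 1) : Polynomial ℤ) =
      ∑ t ∈ Icc 1 N, ((1 - X) * X ^ t : Polynomial ℤ) :=
    Finset.sum_congr rfl fun t ht => if_pos (Finset.mem_Icc.1 ht).2
  rw [this, tel]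
  ring

theorem box (n N : ℕ) : (Fintype.piFinset fun _ : Fin n => Finset.range (N + 2)).filter
    (Adm Finset.univ) = Fintype.piFinset fun _ : Fin n => Icc 1 (N + 1) := by
  ext u
  simp only [mem_filter, Fintype.mem_piFinset, Finset.mem_range, Adm, mem_univ, iff_true, mem_Icc]
  constructor
  · rintro ⟨h1, h2⟩ v
    have := h1 v
    have := h2 v
    omega
  · intro h
    exact ⟨fun v => by have := h v; omega, fun v => by have := h v; omega⟩

theorem total (n N : ℕ) : ∑ u ∈ (Fintype.piFinset fun _ : Fin n => Finset.range (N + 2)).filter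
    (Adm Finset.univ), w N u = X ^ n := by
  rw [box]
  have h := Finset.prod_univ_sum (fun _ : Fin n => Icc 1 (N + 1))
    (fun _ t => (if t ≤ N then (1 - X) * X ^ t else X ^ (N + 1) : Polynomial ℤ))
  unfold w
  rw [← h]
  simp only [one]
  simp

theorem gord_le {n k : ℕ} (m : Fin k → Fin n → ℕ) (u : Fin n → ℕ) (j : Fin k) :
    gord m u ≤ ∑ i, u i * m j i :=
  ciInf_le (OrderBot.bddBelow _) j

theorem low_iff {n k r : ℕ} (π : Fin k → Fin r) (m : Fin k → Fin n → ℕ)
    (hπ : Function.Surjective π) (hk : 0 < k) (u : Fin n → ℕ) (N : ℕ) :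
    low π m u N = ∅ ↔ ¬ gord m u < N := by
  have : Nonempty (Fin k) := ⟨⟨0, hk⟩⟩
  rw [not_lt]
  constructor
  · intro h
    apply le_ciInf
    intro j
    have h1 : π j ∉ low π m u N := by rw [h]; simp
    have h2 : N ≤ ordI π m u (π j) := by
      by_contra hc
      exact h1 (by simp only [low, mem_filter, mem_univ, true_and]; omega)
    refine h2.trans ?_
    exact ciInf_le (f := fun j' : {j' : Fin k // π j' = π j} => ∑ v, u v * m j'.1 v)
      (OrderBot.bddBelow _) ⟨j, rfl⟩
  · intro h
    ext i
    simp only [low, mem_filter, mem_univ, true_and, notMem_empty, iff_false, not_lt]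
    obtain ⟨j, hj⟩ := hπ i
    have : Nonempty {j : Fin k // π j = i} := ⟨⟨j, hj⟩⟩
    apply le_ciInf
    intro j'
    exact h.trans (gord_le m u j'.1)

theorem tau_empty {n k r : ℕ} (π : Fin k → Fin r) (m : Fin k → Fin n → ℕ)
    (u : Fin n → ℕ) (N : ℕ) (h : low π m u N = ∅) : tau π m u N = ∅ := by
  ext j
  simp only [tau, mem_filter, mem_univ, true_and, notMem_empty, iff_false, not_and]
  intro h1
  exfalso
  have h2 : π j ∈ low π m u N := by simp [low, h1]
  rw [h] at h2
  simp at h2

theorem wt_empty {n k : ℕ} (m : Fin k → Fin n → ℕ) (N : ℕ) (u : Fin n → ℕ) :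
    wt (fun _ => 0) m Finset.univ ∅ N u = w N u := by
  unfold wt w
  refine Finset.prod_congr rfl fun v _ => ?_
  rw [if_pos (by simp [free])]

theorem w_eq {n k : ℕ} (m : Fin k → Fin n → ℕ) (N : ℕ) (u : Fin n → ℕ)
    (h : gord m u < N) :
    w N u = (1 - X) ^ (n - (fr m (amin m u)).card) *
      wt (fun _ => 0) m Finset.univ (amin m u) N u := by
  classical
  have hcard : n - (fr m (amin m u)).card = (univ.filter fun v => v ∉ fr m (amin m u)).card := by
    have h1 := Finset.card_filter_add_card_filter_not (s := (univ : Finset (Fin n)))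
      (fun v => v ∈ fr m (amin m u))
    rw [Finset.filter_mem_eq_inter, Finset.univ_inter, Finset.card_univ, Fintype.card_fin] at h1
    omega
  have h2 : ((1 - X) ^ (n - (fr m (amin m u)).card) : Polynomial ℤ) =
      ∏ v, if v ∈ fr m (amin m u) then 1 else (1 - X) := by
    rw [hcard, ← Finset.prod_const, Finset.prod_filter]
    refine Finset.prod_congr rfl fun v _ => ?_
    by_cases hv : v ∈ fr m (amin m u) <;> simp [hv]
  rw [h2]
  unfold w wt
  rw [← Finset.prod_mul_distrib]
  refine Finset.prod_congr rfl fun v _ => ?_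
  by_cases hv : v ∈ fr m (amin m u)
  · rw [if_pos hv, if_pos hv, one_mul]
  · rw [if_neg hv, if_neg hv]
    have h3 : ∃ j ∈ amin m u, m j v ≠ 0 := by
      simp only [fr, free, mem_filter, mem_univ, true_and] at hv
      push Not at hv
      exact hv
    obtain ⟨j, hj, hjv⟩ := h3
    have h4 : ∑ i, u i * m j i = gord m u := by
      simpa [amin] using hj
    have h5 : u v * m j v ≤ ∑ i, u i * m j i :=
      Finset.single_le_sum (f := fun i => u i * m j i) (fun _ _ => Nat.zero_le _) (mem_univ v)
    have h6 : u v ≤ u v * m j v := Nat.le_mul_of_pos_right _ (Nat.pos_of_ne_zero hjv)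
    rw [if_pos (by omega)]

theorem ford_eq {n k : ℕ} (m : Fin k → Fin n → ℕ) (u : Fin n → ℕ) :
    ford (fun _ => 0) m 1 u = gord m u := by
  simp [ford]

theorem main (h : Pool.Agent.W428.MOT.S_CP1) : Pool.Agent.W749.JI.S_CPE := by
  intro n k r π m hπ hk N
  classical
  have hI : cpI π m ∅ ∅ N = ∑ u ∈ (Fintype.piFinset fun _ : Fin n => Finset.range (N + 2)).filter
      (Adm Finset.univ), if ¬ gord m u < N then w N u else 0 := by
    unfold cpI
    rw [← Finset.sum_filter, Finset.filter_filter]
    refine Finset.sum_congr ?_ fun u _ => ?_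
    · ext u
      simp only [mem_filter]
      refine and_congr_right fun _ => and_congr_right fun _ => ?_
      rw [← low_iff π m hπ hk]
      exact ⟨fun h => h.1, fun h => ⟨h, tau_empty π m u N h⟩⟩
    · rw [wt_empty]
      simp
  have hM : ∀ M ∈ Finset.range N, ∀ σ : Finset (Fin k),
      (1 - Polynomial.X) ^ (n - (fr m σ).card) * cp (fun _ => 0) m 1 Finset.univ σ M M =
      ∑ u ∈ (Fintype.piFinset fun _ : Fin n => Finset.range (N + 2)).filter
      (Adm Finset.univ), if gord m u = M then (if amin m u = σ then w N u else 0) else 0 := by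
    intro M hM σ
    have hMN : M < N := Finset.mem_range.1 hM
    rw [← h (fun _ => 0) m 1 Finset.univ σ hk one_pos N M hMN.le]
    unfold cp
    rw [Finset.mul_sum]
    simp only [← ite_and]
    rw [← Finset.sum_filter, Finset.filter_filter]
    refine Finset.sum_congr ?_ fun u hu => ?_
    · ext u
      simp only [mem_filter, ford_eq]
      refine and_congr_right fun _ => and_congr_right fun _ => and_comm
    · simp only [mem_filter] at hu
      rw [← hu.2.2.2, w_eq m N u (by omega)]
  rw [hI, Finset.sum_congr rfl fun M hM' => Finset.sum_congr rfl fun σ _ => hM M hM' σ]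
  have hsw : ∑ M ∈ Finset.range N, ∑ σ : Finset (Fin k),
      ∑ u ∈ (Fintype.piFinset fun _ : Fin n => Finset.range (N + 2)).filter
      (Adm Finset.univ), (if gord m u = M then (if amin m u = σ then w N u else 0) else 0) =
      ∑ u ∈ (Fintype.piFinset fun _ : Fin n => Finset.range (N + 2)).filter
      (Adm Finset.univ), if gord m u < N then w N u else 0 := by
    rw [Finset.sum_congr rfl fun M _ => Finset.sum_comm, Finset.sum_comm]
    refine Finset.sum_congr rfl fun u _ => ?_
    have : ∀ M, ∑ σ : Finset (Fin k), (if gord m u = M then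
        (if amin m u = σ then w N u else 0) else 0) = if gord m u = M then w N u else 0 := by
      intro M
      split_ifs <;> simp
    simp only [this]
    rw [Finset.sum_ite_eq]
    simp [Finset.mem_range]
  rw [hsw, ← Finset.sum_add_distrib, ← total n N]
  refine Finset.sum_congr rfl fun u _ => ?_
  by_cases hu : gord m u < N <;> simp [hu]

end Pool.Agent.W405.JICPE
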