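import Pool.Agent.W988.RA.Defs

set_option autoImplicit false

namespace Pool.Agent.W405.RA_RZ

open Pool.Agent.W988.RA
open scoped BigOperators

lemma sum_prod {n : ℕ} (g : Fin n → Bool → ℝ) :
    ∑ ε : Fin n → Bool, ∏ k, g k (ε k) = ∏ k, (g k true + g k false) := by
  have h := Finset.prod_univ_sum (fun _ : Fin n => (Finset.univ : Finset Bool)) g
  rw [Fintype.piFinset_univ] at h
  rw [← h]
  refine Finset.prod_congr rfl fun k _ => ?_
  rw [Fintype.sum_bool]

theorem result : S_RZ := by
  intro n h a
  constructor
  · unfold av
    rw [div_eq_iff (by positivity)]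
    have h1 : ∀ ε : Fin n → Bool, (∏ k, (1 + h k * sg ε k)) * dt ε a =
        ∑ j, a j * ∏ k, ((1 + h k * (if ε k then (1 : ℝ) else -1)) *
          (if k = j then (if ε k then (1 : ℝ) else -1) else 1)) := by
      intro ε
      unfold dt
      rw [Finset.mul_sum]
      refine Finset.sum_congr rfl fun j _ => ?_
      rw [Finset.prod_mul_distrib, Finset.prod_ite_eq']
      simp only [Finset.mem_univ, if_true, sg]
      ring
    rw [Finset.sum_congr rfl fun ε _ => h1 ε, Finset.sum_comm, Finset.sum_mul]
    refine Finset.sum_congr rfl fun j _ => ?_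
    rw [← Finset.mul_sum]
    rw [sum_prod (fun k b => (1 + h k * (if b then (1 : ℝ) else -1)) *
          (if k = j then (if b then (1 : ℝ) else -1) else 1))]
    have h2 : ∀ k, ((1 + h k * (if true then (1 : ℝ) else -1)) *
          (if k = j then (if true then (1 : ℝ) else -1) else 1) +
        (1 + h k * (if false then (1 : ℝ) else -1)) *
          (if k = j then (if false then (1 : ℝ) else -1) else 1)) =
        2 * (if k = j then h k else 1) := by
      intro k
      by_cases hk : k = j
      · simp only [hk, if_true]
        simp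
        ring
      · simp only [hk, if_false]
        simp
        ring
    simp only [Bool.false_eq_true, if_true, if_false] at h2 ⊢
    rw [Finset.prod_congr rfl fun k _ => h2 k, Finset.prod_mul_distrib, Finset.prod_ite_eq']
    simp only [Finset.mem_univ, if_true, Finset.prod_const, Finset.card_univ, Fintype.card_fin]
    ring
  · unfold av
    rw [div_eq_iff (by positivity)]
    have h1 : ∀ ε : Fin n → Bool, (∏ k, (1 + h k * sg ε k)) ^ 2 =
        ∏ k, (1 + h k * (if ε k then (1 : ℝ) else -1)) ^ 2 := by
      intro ε
      rw [← Finset.prod_pow]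
      rfl
    rw [Finset.sum_congr rfl fun ε _ => h1 ε,
      sum_prod (fun k b => (1 + h k * (if b then (1 : ℝ) else -1)) ^ 2)]
    have h2 : ∀ k, ((1 + h k * 1) ^ 2 + (1 + h k * -1) ^ 2) = 2 * (1 + h k ^ 2) := by
      intro k; ring
    simp only [Bool.false_eq_true, if_true, if_false]
    rw [Finset.prod_congr rfl fun k _ => h2 k, Finset.prod_mul_distrib]
    simp only [Finset.prod_const, Finset.card_univ, Fintype.card_fin]
    ring

end Pool.Agent.W405.RA_RZ
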