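import Pool.Agent.W921.VP.DefsC

set_option autoImplicit false

namespace Pool.Agent.W405.VPUNQ

open Pool.Agent.W921.VP

/-- Size of an element. -/
def sz {J : Type} : El J → ℕ
  | El.y _ => 0
  | El.new u v _ _ _ => sz u + sz v + 1

lemma sz_left {J : Type} (u v : El J) (m m' z : J) : sz u < sz (El.new u v m m' z) := by
  simp only [sz]; omega

lemma sz_right {J : Type} (u v : El J) (m m' z : J) : sz v < sz (El.new u v m m' z) := by
  simp only [sz]; omega

lemma role_cases {J : Type} {q : Cp J} {a : El J} {z : J} (h : Role q a z) :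
    (a = q.u ∧ z = q.m) ∨ (a = q.v ∧ z = q.m') ∨
      (z ≠ q.m ∧ z ≠ q.m' ∧ a = El.new q.u q.v q.m q.m' z) := by
  cases h with
  | left => exact Or.inl ⟨rfl, rfl⟩
  | right => exact Or.inr (Or.inl ⟨rfl, rfl⟩)
  | child z h1 h2 => exact Or.inr (Or.inr ⟨h1, h2, rfl⟩)

lemma new_inj {J : Type} {q q' : Cp J} {z z' : J}
    (h : El.new q.u q.v q.m q.m' z = El.new q'.u q'.v q'.m q'.m' z') : q = q' := by
  obtain ⟨u, v, m, m'⟩ := q
  obtain ⟨u', v', n, n'⟩ := q'
  simp only [El.new.injEq] at h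
  obtain ⟨rfl, rfl, rfl, rfl, _⟩ := h
  rfl

lemma ne_u {J : Type} (q : Cp J) (z : J) : El.new q.u q.v q.m q.m' z ≠ q.u := by
  intro h
  have := sz_left q.u q.v q.m q.m' z
  rw [h] at this
  exact lt_irrefl _ this

lemma ne_v {J : Type} (q : Cp J) (z : J) : El.new q.u q.v q.m q.m' z ≠ q.v := by
  intro h
  have := sz_right q.u q.v q.m q.m' z
  rw [h] at this
  exact lt_irrefl _ this

/-- a point with a role in `q` is smaller than a child of `q`, or it is itself a child. -/
lemma role_lt {J : Type} {q q' : Cp J} {a b : El J} {z : J} (ha : Child q a) (hb : Child q' b)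
    (h : Role q b z) : q = q' ∨ sz b < sz a := by
  obtain ⟨x, _, _, rfl⟩ := ha
  obtain ⟨y, _, _, rfl⟩ := hb
  rcases role_cases h with ⟨h1, _⟩ | ⟨h1, _⟩ | ⟨_, _, h1⟩
  · right
    rw [h1]
    exact sz_left _ _ _ _ _
  · right
    rw [h1]
    exact sz_right _ _ _ _ _
  · left
    exact (new_inj h1).symm

theorem task : S_UNQ := by
  intro J
  refine ⟨?_, ?_, ?_⟩
  · intro q a z z' hq h h'
    rcases role_cases h with ⟨h1, h2⟩ | ⟨h1, h2⟩ | ⟨h1, h2, h3⟩ <;>
      rcases role_cases h' with ⟨k1, k2⟩ | ⟨k1, k2⟩ | ⟨k1, k2, k3⟩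
    · rw [h2, k2]
    · exact absurd (h1.symm.trans k1) hq
    · exact absurd (k3.symm.trans h1) (ne_u q z')
    · exact absurd (k1.symm.trans h1) hq
    · rw [h2, k2]
    · exact absurd (k3.symm.trans h1) (ne_v q z')
    · exact absurd (h3.symm.trans k1) (ne_u q z)
    · exact absurd (h3.symm.trans k1) (ne_v q z)
    · have := h3.symm.trans k3
      simp only [El.new.injEq] at this
      exact this.2.2.2.2
  · intro q a b z hq hm h h'
    rcases role_cases h with ⟨h1, h2⟩ | ⟨h1, h2⟩ | ⟨h1, h2, h3⟩ <;>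
      rcases role_cases h' with ⟨k1, k2⟩ | ⟨k1, k2⟩ | ⟨k1, k2, k3⟩
    · rw [h1, k1]
    · exact absurd (h2.symm.trans k2) hm
    · exact absurd h2 k1
    · exact absurd (k2.symm.trans h2) hm
    · rw [h1, k1]
    · exact absurd h2 k2
    · exact absurd k2 h1
    · exact absurd k2 h2
    · rw [h3, k3]
  · intro q q' a b z z' ha hb h h'
    rcases role_lt ha hb h with e | e
    · exact e
    · rcases role_lt hb ha h' with e' | e'
      · exact e'.symm
      · omega

end Pool.Agent.W405.VPUNQ
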